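import Pool.Agent.X201.GenericAlg

/-!
# `ℚ[G]` is semiprimitive for the generic countable group `G`

This answers Q1 of MP_146d92_al in the affirmative.
-/

namespace Pool.Agent.Results.MP_146d92_al.Generic

open Pool.Agent.X201.GenericAlg MonoidAlgebra Topology

/-- `m` is the operation of a group with universe `ℕ`. -/
structure IsGroupOp (m : ℕ × ℕ → ℕ) : Prop where
  assoc : ∀ a b c, m (m (a, b), c) = m (a, m (b, c))
  exists_one : ∃ e, (∀ a, m (e, a) = a) ∧ (∀ a, m (a, e) = a) ∧
    ∀ a, ∃ b, m (a, b) = e ∧ m (b, a) = e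

/-- The space `𝒢` of all group operations on `ℕ`, with the topology inherited from the product
space `ℕ^(ℕ × ℕ)`, `ℕ` being discrete. -/
abbrev GroupSpace : Type := {m : ℕ × ℕ → ℕ // IsGroupOp m}

/-- The underlying set `ℕ` of the group `(ℕ, m)`. -/
def Carrier (_m : GroupSpace) : Type := ℕ

/-- The group `(ℕ, m)`. -/
noncomputable instance instGroup (m : GroupSpace) : Group (Carrier m) where
  mul a b := m.1 (a, b)
  mul_assoc a b c := m.2.assoc a b c
  one := m.2.exists_one.choose
  one_mul a := m.2.exists_one.choose_spec.1 a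
  mul_one a := m.2.exists_one.choose_spec.2.1 a
  inv a := (m.2.exists_one.choose_spec.2.2 a).choose
  inv_mul_cancel a := (m.2.exists_one.choose_spec.2.2 a).choose_spec.2

theorem mul_eq (m : GroupSpace) (a b : Carrier m) : a * b = m.1 (a, b) := rfl

/-- The element of `ℚ[G]`, `G = (ℕ, m)`, with coefficients `f`. -/
def el (m : GroupSpace) (f : ℕ →₀ ℚ) : MonoidAlgebra ℚ (Carrier m) := MonoidAlgebra.ofCoeff f

theorem el_zero (m : GroupSpace) : el m 0 = 0 := rfl

theorem el_add (m : GroupSpace) (f g : ℕ →₀ ℚ) : el m (f + g) = el m f + el m g := rfl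

theorem el_surj (m : GroupSpace) (x : MonoidAlgebra ℚ (Carrier m)) : ∃ f, x = el m f :=
  ⟨x.coeff, rfl⟩

theorem el_inj (m : GroupSpace) {f g : ℕ →₀ ℚ} (h : el m f = el m g) : f = g :=
  MonoidAlgebra.ofCoeff_injective h

/-- The coefficients of a product. -/
noncomputable def prodF (m : GroupSpace) (f g : ℕ →₀ ℚ) : ℕ →₀ ℚ :=
  f.sum fun a r => g.sum fun b s => Finsupp.single (m.1 (a, b)) (r * s)

/-- `el m` as an additive homomorphism. -/
def elHom (m : GroupSpace) : (ℕ →₀ ℚ) →+ MonoidAlgebra ℚ (Carrier m) where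
  toFun := el m
  map_zero' := rfl
  map_add' _ _ := rfl

theorem el_mul (m : GroupSpace) (f g : ℕ →₀ ℚ) : el m f * el m g = el m (prodF m f g) := by
  change _ = elHom m _
  rw [prodF, map_finsuppSum, MonoidAlgebra.mul_def]
  apply Finset.sum_congr rfl
  intro a _
  simp only
  rw [map_finsuppSum]
  rfl

/-- Products are locally constant. -/
theorem prodF_locally (m₀ : GroupSpace) (f g : ℕ →₀ ℚ) :
    ∀ᶠ m in 𝓝 m₀, prodF m f g = prodF m₀ f g := by
  have h1 : ∀ᶠ m : GroupSpace in 𝓝 m₀, ∀ a ∈ f.support, ∀ b ∈ g.support,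
      m.1 (a, b) = m₀.1 (a, b) := by
    rw [Filter.eventually_all_finset]
    intro a _
    rw [Filter.eventually_all_finset]
    intro b _
    have hc : Continuous fun m : GroupSpace => m.1 (a, b) :=
      (continuous_apply (a, b)).comp continuous_subtype_val
    exact hc.continuousAt.eventually (isOpen_discrete {m₀.1 (a, b)} |>.mem_nhds rfl)
  filter_upwards [h1] with m hm
  exact Finset.sum_congr rfl fun a ha => Finset.sum_congr rfl fun b hb => by
    simp only
    rw [hm a ha b hb]

/-- Membership in the two-sided ideal generated by `f` is an open condition. -/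
theorem gen_locally (m₀ : GroupSpace) (f : ℕ →₀ ℚ) (x : MonoidAlgebra ℚ (Carrier m₀))
    (h : Gen (el m₀ f) x) : ∀ g : ℕ →₀ ℚ, x = el m₀ g → ∀ᶠ m in 𝓝 m₀, Gen (el m f) (el m g) := by
  induction h with
  | base =>
    intro g hg
    rw [← el_inj m₀ hg]
    exact Filter.Eventually.of_forall fun m => Gen.base
  | @add b c _ _ hb hc =>
    intro g hg
    obtain ⟨b', rfl⟩ := el_surj m₀ b
    obtain ⟨c', rfl⟩ := el_surj m₀ c
    rw [← el_add] at hg
    rw [← el_inj m₀ hg]
    filter_upwards [hb b' rfl, hc c' rfl] with m h1 h2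
    exact h1.add h2
  | @mul_left r b _ hb =>
    intro g hg
    obtain ⟨b', rfl⟩ := el_surj m₀ b
    obtain ⟨r', rfl⟩ := el_surj m₀ r
    rw [el_mul] at hg
    rw [← el_inj m₀ hg]
    filter_upwards [hb b' rfl, prodF_locally m₀ r' b'] with m h1 h2
    rw [← h2, ← el_mul]
    exact h1.mul_left _
  | @mul_right r b _ hb =>
    intro g hg
    obtain ⟨b', rfl⟩ := el_surj m₀ b
    obtain ⟨r', rfl⟩ := el_surj m₀ r
    rw [el_mul] at hg
    rw [← el_inj m₀ hg]
    filter_upwards [hb b' rfl, prodF_locally m₀ b' r'] with m h1 h2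
    rw [← h2, ← el_mul]
    exact h1.mul_right _

/-- The set of all `m` such that the two-sided ideal generated by `f` contains a nonzero
idempotent. -/
def V (f : ℕ →₀ ℚ) : Set GroupSpace :=
  {m | ∃ e : ℕ →₀ ℚ, e ≠ 0 ∧ el m e * el m e = el m e ∧ Gen (el m f) (el m e)}

theorem isOpen_V (f : ℕ →₀ ℚ) : IsOpen (V f) := by
  rw [isOpen_iff_mem_nhds]
  rintro m₀ ⟨e, he0, hee, hgen⟩
  rw [el_mul] at hee
  have hee' := el_inj m₀ hee
  filter_upwards [prodF_locally m₀ e e, gen_locally m₀ f _ hgen e rfl] with m h1 h2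
  refine ⟨e, he0, ?_, h2⟩
  rw [el_mul, h1, hee']

theorem jacobson_eq_bot {m : GroupSpace} (h : ∀ f : ℕ →₀ ℚ, f ≠ 0 → m ∈ V f) :
    Ring.jacobson (MonoidAlgebra ℚ (Carrier m)) = ⊥ := by
  rw [eq_bot_iff]
  intro x hx
  obtain ⟨f, rfl⟩ := el_surj m x
  by_contra hne
  have hf : f ≠ 0 := by
    rintro rfl
    exact hne (Ideal.mem_bot.2 (el_zero m))
  obtain ⟨e, he0, hee, hgen⟩ := h f hf
  have h1 : el m e ∈ Ring.jacobson (MonoidAlgebra ℚ (Carrier m)) := hgen.mem _ hx
  have h2 := eq_zero_of_mem_jacobson hee h1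
  exact he0 (el_inj m (h2.trans (el_zero m).symm))

/-! ## Density -/

section Transport

variable {K : Type} [Group K] (σ : ℕ ≃ K)

/-- The group operation on `ℕ` transported along a bijection. -/
def transport : GroupSpace :=
  ⟨fun p => σ.symm (σ p.1 * σ p.2),
    { assoc := fun a b c => by simp [mul_assoc]
      exists_one := ⟨σ.symm 1, fun a => by simp, fun a => by simp,
        fun a => ⟨σ.symm (σ a)⁻¹, by simp, by simp⟩⟩ }⟩

/-- The isomorphism of the transported group with the original one. -/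
def transportEquiv : Carrier (transport σ) ≃* K where
  toFun := σ
  invFun := σ.symm
  left_inv := σ.left_inv
  right_inv := σ.right_inv
  map_mul' a b := by
    change σ (σ.symm (σ a * σ b)) = _
    simp

end Transport

/-- A finite partial injection between countably infinite sets extends to a bijection. -/
theorem exists_extension {K : Type} [Countable K] [Infinite K] (F : Finset ℕ) (j : ℕ → K)
    (hj : Function.Injective j) : ∃ σ : ℕ ≃ K, ∀ n ∈ F, σ n = j n := by
  obtain ⟨τ⟩ : Nonempty (ℕ ≃ K) := by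
    obtain ⟨e⟩ := nonempty_denumerable K
    exact ⟨(Denumerable.eqv K).symm⟩
  have := Equiv.Perm.isMultiplyPretransitive K F.card
  let x₀ : Fin F.card ↪ ℕ := F.equivFin.symm.toEmbedding.trans (Function.Embedding.subtype _)
  let x : Fin F.card ↪ K := x₀.trans τ.toEmbedding
  let y : Fin F.card ↪ K := x₀.trans ⟨j, hj⟩
  obtain ⟨g, hg⟩ := MulAction.exists_smul_eq (Equiv.Perm K) x y
  refine ⟨τ.trans g, fun n hn => ?_⟩
  have h1 := congrArg (fun z : Fin F.card ↪ K => z (F.equivFin ⟨n, hn⟩)) hg
  simpa [x, y, x₀] using h1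

instance (m : GroupSpace) : Countable (Carrier m) := inferInstanceAs (Countable ℕ)

instance (m : GroupSpace) : Infinite (Carrier m) := inferInstanceAs (Infinite ℕ)

instance (m : GroupSpace) : Countable (H (Carrier m)) :=
  (SemidirectProduct.equivProd (φ := act (Carrier m))).countable_iff.2
    (by
      have : Countable (B (Carrier m)) :=
        inferInstanceAs (Countable (Carrier m →₀ ZMod 2))
      infer_instance)

instance (m : GroupSpace) : Infinite (H (Carrier m)) :=
  Infinite.of_injective (SemidirectProduct.inr : Carrier m → H (Carrier m))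
    SemidirectProduct.inr_injective

theorem dense_V (f : ℕ →₀ ℚ) (hf : f ≠ 0) : Dense (V f) := by
  intro m₀
  rw [mem_closure_iff_nhds]
  intro t ht
  -- a basic neighbourhood
  obtain ⟨I, hI⟩ : ∃ I : Finset (ℕ × ℕ), ∀ m : GroupSpace, (∀ p ∈ I, m.1 p = m₀.1 p) → m ∈ t := by
    have ht : t ∈ Filter.comap Subtype.val (𝓝 m₀.1) := by
      have h1 : 𝓝 m₀ = Filter.comap Subtype.val (𝓝 m₀.1) := nhds_induced _ _
      rwa [h1] at ht
    rw [Filter.mem_comap] at ht
    obtain ⟨t', ht', htt⟩ := ht
    rw [nhds_pi, Filter.mem_pi] at ht'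
    obtain ⟨I, hIfin, s, hs, hst⟩ := ht'
    refine ⟨hIfin.toFinset, fun m hm => htt (hst ?_)⟩
    intro p hp
    rw [hm p (hIfin.mem_toFinset.2 hp)]
    exact mem_of_mem_nhds (hs p)
  let K := H (Carrier m₀)
  let j' : Carrier m₀ →* K := SemidirectProduct.inr
  let j : ℕ → K := j'
  have hj' : Function.Injective j' := SemidirectProduct.inr_injective
  have hj : Function.Injective j := hj'
  let F : Finset ℕ := f.support ∪ I.image Prod.fst ∪ I.image Prod.snd ∪ I.image m₀.1
  have hsub : ∀ n : ℕ, n ∈ f.support → n ∈ F := by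
    intro n hn
    simp only [F, Finset.mem_union]
    exact Or.inl (Or.inl (Or.inl hn))
  obtain ⟨σ, hσ⟩ := exists_extension F j hj
  refine ⟨transport σ, hI _ ?_, ?_⟩
  · rintro ⟨a, b⟩ hp
    change σ.symm (σ a * σ b) = _
    have ha : a ∈ F := by
      simp only [F, Finset.mem_union, Finset.mem_image]
      exact Or.inl (Or.inl (Or.inr ⟨(a, b), hp, rfl⟩))
    have hb : b ∈ F := by
      simp only [F, Finset.mem_union, Finset.mem_image]
      exact Or.inl (Or.inr ⟨(a, b), hp, rfl⟩)
    have hab : m₀.1 (a, b) ∈ F := by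
      simp only [F, Finset.mem_union, Finset.mem_image]
      exact Or.inr ⟨(a, b), hp, rfl⟩
    rw [hσ a ha, hσ b hb, Equiv.symm_apply_eq, hσ _ hab]
    let a' : Carrier m₀ := a
    let b' : Carrier m₀ := b
    exact (j'.map_mul a' b').symm
  · let f' : Carrier m₀ →₀ ℚ := f
    obtain ⟨e, he0, hee, hgen⟩ := exists_idempotent (G := Carrier m₀) f' hf
    let Ψ : MonoidAlgebra ℚ K →+* MonoidAlgebra ℚ (Carrier (transport σ)) :=
      MonoidAlgebra.mapDomainRingHom ℚ ((transportEquiv σ).symm : K →* Carrier (transport σ))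
    have hΨ : Function.Injective Ψ :=
      MonoidAlgebra.mapDomain_injective (transportEquiv σ).symm.injective
    have hΨf : Ψ (iota f') = el (transport σ) f := by
      rw [iota, map_sum]
      have h1 : el (transport σ) f = ∑ n ∈ f.support, el (transport σ) (Finsupp.single n (f n)) := by
        conv_lhs => rw [← Finsupp.sum_single f]
        exact map_sum (elHom (transport σ)) _ _
      rw [h1]
      apply Finset.sum_congr rfl
      intro n hn
      simp only [Ψ]
      rw [MonoidAlgebra.mapDomainRingHom_apply, MonoidAlgebra.mapDomain_single]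
      have hn' : n ∈ F := hsub n hn
      have h2 : (transportEquiv σ).symm (j n) = n := by
        rw [← hσ n hn']
        exact σ.symm_apply_apply n
      change MonoidAlgebra.single ((transportEquiv σ).symm (j n)) (f n) = _
      rw [h2]
      rfl
    obtain ⟨e', he'⟩ := el_surj (transport σ) (Ψ e)
    refine ⟨e', ?_, ?_, ?_⟩
    · rintro rfl
      rw [el_zero, ← map_zero Ψ] at he'
      exact he0 (hΨ he')
    · rw [← he', ← map_mul, hee]
    · rw [← he', ← hΨf]
      exact hgen.map Ψ

/-- For the generic countably infinite group `G` (with universe `ℕ`), the rational group algebra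
`ℚ[G]` is semiprimitive. -/
theorem result :
    {m : GroupSpace | Ring.jacobson (MonoidAlgebra ℚ (Carrier m)) = ⊥} ∈ residual GroupSpace := by
  rw [mem_residual_iff]
  refine ⟨V '' {f | f ≠ 0}, ?_, ?_, ?_, ?_⟩
  · rintro _ ⟨f, -, rfl⟩
    exact isOpen_V f
  · rintro _ ⟨f, hf, rfl⟩
    exact dense_V f hf
  · exact (Set.to_countable _).image V
  · intro m hm
    exact jacobson_eq_bot fun f hf => hm _ ⟨f, hf, rfl⟩

end Pool.Agent.Results.MP_146d92_al.Generic
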